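import Pool.Agent.Helper55.TM.Basic

/-!
# MP_fc8395_an : module AO, derivatives of all orders
-/

set_option autoImplicit false

open scoped ContDiff Topology
open Filter Set

namespace TM

namespace AO

theorem norm_cos_sub_one_le {w : ℂ} (hw : ‖w‖ ≤ 1) : ‖Complex.cos w - 1‖ ≤ ‖w‖ ^ 2 := by
  have h1 := Complex.norm_exp_sub_one_sub_id_le (x := w * Complex.I) (by simpa using hw)
  have h2 := Complex.norm_exp_sub_one_sub_id_le (x := -(w * Complex.I)) (by simpa using hw)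
  have h3 : Complex.cos w - 1 = ((Complex.exp (w * Complex.I) - 1 - w * Complex.I) +
      (Complex.exp (-(w * Complex.I)) - 1 - -(w * Complex.I))) / 2 := by
    rw [Complex.cos]
    ring_nf
  rw [h3, norm_div]
  have h4 : ‖(2 : ℂ)‖ = 2 := by simp
  rw [h4, div_le_iff₀ (by norm_num)]
  refine (norm_add_le _ _).trans ?_
  have e1 : ‖w * Complex.I‖ = ‖w‖ := by simp
  have e2 : ‖-(w * Complex.I)‖ = ‖w‖ := by simp
  rw [e1] at h1
  rw [e2] at h2
  linarith

theorem norm_sin_le {w : ℂ} (hw : ‖w‖ ≤ 1) : ‖Complex.sin w‖ ≤ 2 * ‖w‖ := by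
  have h1 := Complex.norm_exp_sub_one_sub_id_le (x := w * Complex.I) (by simpa using hw)
  have h2 := Complex.norm_exp_sub_one_sub_id_le (x := -(w * Complex.I)) (by simpa using hw)
  have h3 : Complex.sin w = w + ((Complex.exp (-(w * Complex.I)) - 1 - -(w * Complex.I)) -
      (Complex.exp (w * Complex.I) - 1 - w * Complex.I)) * Complex.I / 2 := by
    rw [Complex.sin, neg_mul]
    have : Complex.I * Complex.I = -1 := Complex.I_mul_I
    linear_combination (-w) * this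
  rw [h3]
  refine (norm_add_le _ _).trans ?_
  rw [norm_div, norm_mul]
  have h4 : ‖(2 : ℂ)‖ = 2 := by simp
  have e1 : ‖w * Complex.I‖ = ‖w‖ := by simp
  have e2 : ‖-(w * Complex.I)‖ = ‖w‖ := by simp
  rw [e1] at h1
  rw [e2] at h2
  have h5 := norm_sub_le (Complex.exp (-(w * Complex.I)) - 1 - -(w * Complex.I))
      (Complex.exp (w * Complex.I) - 1 - w * Complex.I)
  rw [h4, Complex.norm_I, mul_one]
  nlinarith [norm_nonneg w]

theorem norm_one_add_le (u : ℂ) : ‖1 + u‖ ≤ Real.exp (u.re + ‖u‖ ^ 2 / 2) := by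
  have h1 : ‖1 + u‖ ^ 2 = 1 + (2 * u.re + ‖u‖ ^ 2) := by
    rw [← Complex.normSq_eq_norm_sq, ← Complex.normSq_eq_norm_sq, Complex.normSq_apply,
      Complex.normSq_apply]
    simp
    ring
  have h2 : ‖1 + u‖ ^ 2 ≤ Real.exp (u.re + ‖u‖ ^ 2 / 2) ^ 2 := by
    rw [h1, ← Real.exp_nat_mul]
    have := Real.add_one_le_exp (2 * u.re + ‖u‖ ^ 2)
    refine (by linarith : 1 + (2 * u.re + ‖u‖ ^ 2) ≤ Real.exp (2 * u.re + ‖u‖ ^ 2)).trans
      (le_of_eq ?_)
    congr 1
    push_cast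
    ring
  exact (sq_le_sq₀ (norm_nonneg _) (Real.exp_pos _).le).1 h2

/-- bound of the product -/
theorem prod_bound {k : ℕ} (a : Fin k → ℝ) {K1 K2 d : ℝ} (hK1 : 0 ≤ K1) (hK2 : 0 ≤ K2)
    (hd : 0 < d) (h1 : ∑ l, (1 + a l ^ 2) ≤ K1 * d ^ 2) (h2 : |∑ l, a l| ≤ K2 * d)
    {z : ℂ} (hz1 : ‖z‖ ≤ 1) (hz : d * ‖z‖ ≤ 1) :
    ‖∏ l, (Complex.cos (z / 2) + a l * Complex.sin (z / 2))‖ ≤ Real.exp (2 * K1 + K2) := by
  have hw : ‖z / 2‖ = ‖z‖ / 2 := by rw [norm_div]; simp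
  have hw1 : ‖z / 2‖ ≤ 1 := by rw [hw]; linarith
  have hc := norm_cos_sub_one_le hw1
  have hs := norm_sin_le hw1
  rw [hw] at hc hs
  have hz0 := norm_nonneg z
  have hs' : ‖Complex.sin (z / 2)‖ ≤ ‖z‖ := by linarith
  have hc' : ‖Complex.cos (z / 2) - 1‖ ≤ ‖z‖ := by nlinarith
  have hc'' : ‖Complex.cos (z / 2) - 1‖ ≤ ‖z‖ ^ 2 := by nlinarith
  have hk : (k : ℝ) ≤ K1 * d ^ 2 := by
    refine le_trans ?_ h1
    have : (k : ℝ) = ∑ _l : Fin k, (1 : ℝ) := by simp
    rw [this]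
    exact Finset.sum_le_sum (fun l _ => by nlinarith [sq_nonneg (a l)])
  set u : Fin k → ℂ := fun l => (Complex.cos (z / 2) - 1) + a l * Complex.sin (z / 2) with hu
  have hprod : ∏ l, (Complex.cos (z / 2) + a l * Complex.sin (z / 2)) = ∏ l, (1 + u l) := by
    refine Finset.prod_congr rfl (fun l _ => ?_)
    rw [hu]; ring
  have hdz : (d * ‖z‖) ^ 2 ≤ 1 := by
    have : 0 ≤ d * ‖z‖ := by positivity
    nlinarith
  have hsum : (∑ l, (u l).re) ≤ K1 + K2 := by
    have h3 : ∑ l, (u l).re = (∑ l, u l).re := by rw [Complex.re_sum]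
    have h4 : ∑ l, u l = k * (Complex.cos (z / 2) - 1) + (∑ l, a l : ℝ) * Complex.sin (z / 2) := by
      rw [hu, Finset.sum_add_distrib, Finset.sum_const, Finset.card_univ, Fintype.card_fin,
        nsmul_eq_mul, ← Finset.sum_mul]
      push_cast
      ring
    rw [h3, h4]
    refine (Complex.re_le_norm _).trans ((norm_add_le _ _).trans ?_)
    rw [norm_mul, norm_mul, Complex.norm_natCast, Complex.norm_real, Real.norm_eq_abs]
    have e1 : (k : ℝ) * ‖Complex.cos (z / 2) - 1‖ ≤ K1 := by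
      calc (k : ℝ) * ‖Complex.cos (z / 2) - 1‖ ≤ (K1 * d ^ 2) * ‖z‖ ^ 2 :=
            mul_le_mul hk hc'' (norm_nonneg _) (by positivity)
        _ = K1 * (d * ‖z‖) ^ 2 := by ring
        _ ≤ K1 * 1 := mul_le_mul_of_nonneg_left hdz hK1
        _ = K1 := mul_one _
    have e2 : |∑ l, a l| * ‖Complex.sin (z / 2)‖ ≤ K2 := by
      calc |∑ l, a l| * ‖Complex.sin (z / 2)‖ ≤ (K2 * d) * ‖z‖ :=
            mul_le_mul h2 hs' (norm_nonneg _) (by positivity)
        _ = K2 * (d * ‖z‖) := by ring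
        _ ≤ K2 * 1 := mul_le_mul_of_nonneg_left hz hK2
        _ = K2 := mul_one _
    linarith
  have hsq : (∑ l, ‖u l‖ ^ 2) ≤ 2 * K1 := by
    have h3 : ∀ l, ‖u l‖ ^ 2 ≤ 2 * ‖z‖ ^ 2 * (1 + a l ^ 2) := by
      intro l
      have e1 : ‖u l‖ ≤ ‖z‖ * (1 + |a l|) := by
        refine (norm_add_le _ _).trans ?_
        rw [norm_mul, Complex.norm_real, Real.norm_eq_abs]
        have := mul_le_mul_of_nonneg_left hs' (abs_nonneg (a l))
        linarith
      have e2 : ‖u l‖ ^ 2 ≤ (‖z‖ * (1 + |a l|)) ^ 2 :=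
        pow_le_pow_left₀ (norm_nonneg _) e1 2
      have e3 : (1 + |a l|) ^ 2 ≤ 2 * (1 + a l ^ 2) := by
        rw [← sq_abs (a l)]
        nlinarith [sq_nonneg (1 - |a l|)]
      calc ‖u l‖ ^ 2 ≤ ‖z‖ ^ 2 * (1 + |a l|) ^ 2 := by rw [← mul_pow]; exact e2
        _ ≤ ‖z‖ ^ 2 * (2 * (1 + a l ^ 2)) := mul_le_mul_of_nonneg_left e3 (by positivity)
        _ = _ := by ring
    calc (∑ l, ‖u l‖ ^ 2) ≤ ∑ l, 2 * ‖z‖ ^ 2 * (1 + a l ^ 2) :=
          Finset.sum_le_sum (fun l _ => h3 l)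
      _ = 2 * ‖z‖ ^ 2 * ∑ l, (1 + a l ^ 2) := by rw [← Finset.mul_sum]
      _ ≤ 2 * ‖z‖ ^ 2 * (K1 * d ^ 2) := mul_le_mul_of_nonneg_left h1 (by positivity)
      _ = 2 * K1 * (d * ‖z‖) ^ 2 := by ring
      _ ≤ 2 * K1 * 1 := mul_le_mul_of_nonneg_left hdz (by positivity)
      _ = _ := mul_one _
  rw [hprod, norm_prod]
  calc ∏ l, ‖1 + u l‖ ≤ ∏ l, Real.exp ((u l).re + ‖u l‖ ^ 2 / 2) :=
        Finset.prod_le_prod (fun l _ => norm_nonneg _) (fun l _ => norm_one_add_le _)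
    _ = Real.exp (∑ l, ((u l).re + ‖u l‖ ^ 2 / 2)) := (Real.exp_sum _ _).symm
    _ ≤ Real.exp (2 * K1 + K2) := by
      apply Real.exp_le_exp.2
      rw [Finset.sum_add_distrib, ← Finset.sum_div]
      linarith

/-- real and complex derivatives -/
theorem iteratedDeriv_ofReal {g : ℝ → ℝ} {G : ℂ → ℂ} (hG : Differentiable ℂ G)
    (h : ∀ s : ℝ, (g s : ℂ) = G s) (n : ℕ) :
    ∀ s : ℝ, ((iteratedDeriv n g s : ℝ) : ℂ) = iteratedDeriv n G s := by
  have hGn : ∀ n, Differentiable ℂ (iteratedDeriv n G) := by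
    intro n
    have : ContDiff ℂ ∞ G := hG.contDiff
    exact this.differentiable_iteratedDeriv n (by exact_mod_cast WithTop.coe_lt_top _)
  induction n with
  | zero => simpa using h
  | succ n ih =>
    intro s
    rw [iteratedDeriv_succ, iteratedDeriv_succ]
    have h1 : HasDerivAt (iteratedDeriv n G) (deriv (iteratedDeriv n G) s) s :=
      (hGn n s).hasDerivAt
    have h2 := h1.real_of_complex
    have h3 : (fun x : ℝ => (iteratedDeriv n G x).re) = iteratedDeriv n g := by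
      funext x
      rw [← ih x, Complex.ofReal_re]
    rw [h3] at h2
    have h4 := h1.comp_ofReal
    have h5 : (fun x : ℝ => iteratedDeriv n G x) = fun x : ℝ => ((iteratedDeriv n g x : ℝ) : ℂ) := by
      funext x
      rw [← ih x]
    rw [h5] at h4
    have h6 := h2.ofReal_comp
    exact (h2.deriv ▸ h6.unique h4 : _)

end AO

/-- the bound with `RT_prod`, `RT_tame` as hypotheses -/
theorem RT_all_of {a c : ℝ} (ha : 0 ≤ a) (hac : a < c) (n : ℕ) : ∃ C : ℝ, 0 ≤ C ∧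
    ∀ (m : ℕ) (f : ℝ → ℝ), 1 ≤ m → ∀ τ, |f τ| ≤ a →
      (∀ v : ℝ, |v| < c → f τ ≠ v → ∃ a : Fin (2 * m) → ℝ,
      (∀ s : ℝ, f (τ + s) - v
        = (f τ - v) * ∏ l, (Real.cos (s / 2) + a l * Real.sin (s / 2))) ∧
      deriv f τ = (f τ - v) * (∑ l, a l) / 2 ∧
      deriv f τ ^ 2 - (f τ - v) * deriv (deriv f) τ = (f τ - v) ^ 2 * (∑ l, (1 + a l ^ 2)) / 4) →
      (|deriv (deriv f) τ| * (c - |f τ|) ≤ deriv f τ ^ 2 ∧
      (m : ℝ) / 2 * (c ^ 2 - f τ ^ 2) ≤ deriv f τ ^ 2) →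
      |iteratedDeriv n f τ| ≤ C * |deriv f τ| ^ n := by
  have hc : 0 < c := lt_of_le_of_lt ha hac
  set d0 : ℝ := Real.sqrt ((c ^ 2 - a ^ 2) / 2) with hd0
  have hd0p : 0 < d0 := Real.sqrt_pos.2 (by nlinarith)
  set ρ : ℝ := min d0 1 with hρ
  have hρp : 0 < ρ := lt_min hd0p one_pos
  set K1 : ℝ := 4 * (1 + 2 * c / (c - a)) / ((a + c) / 2) ^ 2 with hK1
  set K2 : ℝ := 4 / (a + c) with hK2
  have hca : 0 < c - a := by linarith
  have hapc : 0 < a + c := by linarith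
  have hK1p : 0 ≤ K1 := by positivity
  have hK2p : 0 ≤ K2 := by positivity
  set M : ℝ := 2 * c * Real.exp (2 * K1 + K2) + a with hM
  have hMp : 0 ≤ M := by positivity
  refine ⟨n.factorial * M / ρ ^ n, by positivity, ?_⟩
  intro m f hm τ hτ hprod htame
  obtain ⟨ht1, ht2⟩ := htame
  -- the number `v`
  obtain ⟨v, hv, hfv1, hfv2⟩ : ∃ v : ℝ, |v| < c ∧ (a + c) / 2 ≤ |f τ - v| ∧ |f τ - v| ≤ 2 * c := by
    have hτ' := abs_le.1 hτ
    by_cases h0 : 0 ≤ f τ
    · refine ⟨-((a + c) / 2), ?_, ?_, ?_⟩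
      · rw [abs_neg, abs_of_pos (by linarith)]; linarith
      · rw [abs_of_nonneg (by linarith)]; linarith
      · rw [abs_of_nonneg (by linarith)]; linarith
    · push Not at h0
      refine ⟨(a + c) / 2, ?_, ?_, ?_⟩
      · rw [abs_of_pos (by linarith)]; linarith
      · rw [abs_of_neg (by linarith)]; linarith
      · rw [abs_of_neg (by linarith)]; linarith
  have hne : f τ ≠ v := by
    intro h
    rw [h, sub_self, abs_zero] at hfv1
    linarith
  obtain ⟨b, hb1, hb2, hb3⟩ := hprod v hv hne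
  set d : ℝ := |deriv f τ| with hd
  have hdsq : deriv f τ ^ 2 = d ^ 2 := (sq_abs _).symm
  have hfsq : f τ ^ 2 ≤ a ^ 2 := by
    rw [← sq_abs (f τ)]
    exact pow_le_pow_left₀ (abs_nonneg _) hτ 2
  have hd0d : d0 ≤ d := by
    apply Real.sqrt_le_iff.2
    refine ⟨abs_nonneg _, ?_⟩
    rw [← hdsq]
    refine le_trans ?_ ht2
    have hm' : (1 : ℝ) ≤ m := by exact_mod_cast hm
    nlinarith [mul_nonneg (by linarith : (0 : ℝ) ≤ (m : ℝ) - 1)
      (by nlinarith : (0 : ℝ) ≤ c ^ 2 - f τ ^ 2)]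
  have hdp : 0 < d := lt_of_lt_of_le hd0p hd0d
  -- bounds of the sums
  have hfvp : 0 < |f τ - v| := by linarith
  have hS1 : ∑ l, (1 + b l ^ 2) ≤ K1 * d ^ 2 := by
    have e0 : |deriv (deriv f) τ| * (c - a) ≤ d ^ 2 := by
      rw [← hdsq]
      refine le_trans ?_ ht1
      exact mul_le_mul_of_nonneg_left (by linarith) (abs_nonneg _)
    have e1 : |deriv (deriv f) τ| ≤ d ^ 2 / (c - a) := by
      rw [le_div_iff₀ hca]; exact e0
    have e2 : (f τ - v) ^ 2 * (∑ l, (1 + b l ^ 2)) ≤ 4 * (1 + 2 * c / (c - a)) * d ^ 2 := by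
      have e3 : -((f τ - v) * deriv (deriv f) τ) ≤ 2 * c * (d ^ 2 / (c - a)) := by
        refine (neg_le_abs _).trans ?_
        rw [abs_mul]
        exact mul_le_mul hfv2 e1 (abs_nonneg _) (by linarith)
      have e4 : 4 * (1 + 2 * c / (c - a)) * d ^ 2 =
          4 * (d ^ 2 + 2 * c * (d ^ 2 / (c - a))) := by ring
      rw [e4]
      rw [hdsq] at hb3
      linarith
    have e5 : ((a + c) / 2) ^ 2 ≤ (f τ - v) ^ 2 := by
      rw [← sq_abs (f τ - v)]
      exact pow_le_pow_left₀ (by linarith) hfv1 2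
    have e6 : 0 ≤ ∑ l, (1 + b l ^ 2) := Finset.sum_nonneg (fun l _ => by positivity)
    have e7 : ((a + c) / 2) ^ 2 * (∑ l, (1 + b l ^ 2)) ≤ 4 * (1 + 2 * c / (c - a)) * d ^ 2 :=
      (mul_le_mul_of_nonneg_right e5 e6).trans e2
    rw [hK1, div_mul_eq_mul_div, le_div_iff₀ (by positivity)]
    linarith
  have hS2 : |∑ l, b l| ≤ K2 * d := by
    have e1 : d = |f τ - v| * |∑ l, b l| / 2 := by
      rw [hd, hb2, abs_div, abs_mul, abs_of_pos (by norm_num : (0 : ℝ) < 2)]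
    have e2 : (a + c) / 2 * |∑ l, b l| ≤ 2 * d := by
      rw [e1]
      have := mul_le_mul_of_nonneg_right hfv1 (abs_nonneg (∑ l, b l))
      linarith
    rw [hK2, div_mul_eq_mul_div, le_div_iff₀ hapc]
    linarith
  -- the case `n = 0`
  rcases Nat.eq_zero_or_pos n with hn | hn
  · subst hn
    simp only [iteratedDeriv_zero, pow_zero, Nat.factorial_zero, Nat.cast_one, div_one, mul_one,
      one_mul]
    have : 0 ≤ 2 * c * Real.exp (2 * K1 + K2) := by positivity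
    linarith
  -- the entire function
  set G : ℂ → ℂ := fun z => (f τ - v : ℝ) *
    ∏ l, (Complex.cos (z / 2) + b l * Complex.sin (z / 2)) with hG
  have hGd : Differentiable ℂ G := by
    rw [hG]
    refine (differentiable_const _).mul ?_
    refine Differentiable.fun_finsetProd (fun l _ => ?_)
    fun_prop
  have hGr : ∀ s : ℝ, ((f (τ + s) - v : ℝ) : ℂ) = G s := by
    intro s
    rw [hb1 s, hG]
    push_cast
    rfl
  have hder := AO.iteratedDeriv_ofReal hGd hGr n 0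
  have hder2 : iteratedDeriv n (fun s => f (τ + s) - v) 0 = iteratedDeriv n f τ := by
    obtain ⟨n', rfl⟩ : ∃ n', n = n' + 1 := ⟨n - 1, by omega⟩
    have e1 : deriv (fun s => f (τ + s) - v) = fun s => deriv f (τ + s) := by
      funext s
      rw [deriv_sub_const, deriv_comp_const_add]
    rw [iteratedDeriv_succ', e1, iteratedDeriv_comp_const_add, iteratedDeriv_succ']
    simp
  rw [hder2] at hder
  have hcauchy := Complex.norm_iteratedDeriv_le_of_forall_mem_sphere_norm_le (n := n) (c := 0)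
    (R := ρ / d) (C := M) (f := G) (by positivity) hGd.diffContOnCl (by
      intro z hz
      rw [mem_sphere_zero_iff_norm] at hz
      have hz1 : ‖z‖ ≤ 1 := by
        rw [hz, div_le_one hdp]
        exact (min_le_left _ _).trans hd0d
      have hz2 : d * ‖z‖ ≤ 1 := by
        rw [hz, mul_div_cancel₀ _ hdp.ne']
        exact min_le_right _ _
      have h1 := AO.prod_bound b hK1p hK2p hdp hS1 hS2 hz1 hz2
      rw [hG]
      simp only
      rw [norm_mul, Complex.norm_real, Real.norm_eq_abs]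
      have h2 : |f τ - v| * ‖∏ l, (Complex.cos (z / 2) + b l * Complex.sin (z / 2))‖ ≤
          2 * c * Real.exp (2 * K1 + K2) :=
        mul_le_mul hfv2 h1 (norm_nonneg _) (by linarith)
      linarith)
  rw [← Complex.ofReal_zero, ← hder, Complex.norm_real, Real.norm_eq_abs] at hcauchy
  refine hcauchy.trans (le_of_eq ?_)
  rw [div_pow]
  field_simp

end TM
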