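import Pool.Agent.Helper55.TM.Basic

/-!
# MP_fc8395_an : module AT, from an atlas to the decomposition
-/

set_option autoImplicit false

open scoped ContDiff Topology
open Filter Set

namespace TM

namespace AT

/-- the part of a plaque that is not covered by the earlier boxes -/
def R (φ : ℕ → ℝ × ℝ → Pt) (i : ℕ) (c : ℝ) : Set ℝ :=
  {s | s ∈ Icc (-1 : ℝ) 1 ∧ ∀ j < i, φ i (s, c) ∉ φ j '' (Metric.closedBall 0 1)}

theorem mem_box {s c : ℝ} (hs : s ∈ Icc (-1 : ℝ) 1) (hc : c ∈ Icc (-1 : ℝ) 1) :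
    ((s, c) : ℝ × ℝ) ∈ Metric.closedBall (0 : ℝ × ℝ) 1 := by
  rw [mem_closedBall_zero_iff, Prod.norm_def, sup_le_iff]
  exact ⟨abs_le.2 ⟨hs.1, hs.2⟩, abs_le.2 ⟨hc.1, hc.2⟩⟩

theorem box_mem {z : ℝ × ℝ} (hz : z ∈ Metric.closedBall (0 : ℝ × ℝ) 1) :
    z.1 ∈ Icc (-1 : ℝ) 1 ∧ z.2 ∈ Icc (-1 : ℝ) 1 := by
  rw [mem_closedBall_zero_iff, Prod.norm_def, sup_le_iff] at hz
  exact ⟨abs_le.1 hz.1, abs_le.1 hz.2⟩

theorem nontriv {φ : ℕ → ℝ × ℝ → Pt} (hφ : ∀ i, Continuous (φ i)) {i : ℕ} {c s : ℝ}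
    (hs : s ∈ R φ i c) : (ordConnectedComponent (R φ i c) s).Nontrivial := by
  have hopen : IsOpen {t : ℝ | ∀ j ∈ Finset.range i, φ i (t, c) ∉ φ j '' (Metric.closedBall 0 1)} := by
    have h1 : {t : ℝ | ∀ j ∈ Finset.range i, φ i (t, c) ∉ φ j '' (Metric.closedBall 0 1)} =
        ⋂ j ∈ Finset.range i, {t : ℝ | φ i (t, c) ∉ φ j '' (Metric.closedBall 0 1)} := by
      ext t; simp
    rw [h1]
    refine isOpen_biInter_finset (fun j _ => ?_)
    have hK : IsClosed (φ j '' (Metric.closedBall 0 1)) :=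
      ((isCompact_closedBall (0 : ℝ × ℝ) 1).image (hφ j)).isClosed
    exact hK.isOpen_compl.preimage ((hφ i).comp (by fun_prop : Continuous fun t : ℝ => (t, c)))
  have hmem : s ∈ {t : ℝ | ∀ j ∈ Finset.range i, φ i (t, c) ∉ φ j '' (Metric.closedBall 0 1)} :=
    fun j hj => hs.2 j (Finset.mem_range.1 hj)
  obtain ⟨ε, hε, hball⟩ := Metric.isOpen_iff.1 hopen s hmem
  have key : ∀ t ∈ Icc (-1 : ℝ) 1, |t - s| < ε → t ∈ ordConnectedComponent (R φ i c) s := by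
    intro t ht hts
    rw [mem_ordConnectedComponent]
    intro u hu
    have hus : |u - s| ≤ |t - s| := by
      have h1 := abs_sub_left_of_mem_uIcc hu
      rw [abs_sub_comm t s, abs_sub_comm u s]
      rcases mem_uIcc.1 hu with h | h
      · rw [abs_of_nonpos (by linarith : s - u ≤ 0), abs_of_nonpos (by linarith : s - t ≤ 0)]
        linarith
      · rw [abs_of_nonneg (by linarith : 0 ≤ s - u), abs_of_nonneg (by linarith : 0 ≤ s - t)]
        linarith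
    have h2 := hball (show u ∈ Metric.ball s ε by
      rw [Metric.mem_ball, Real.dist_eq]; exact lt_of_le_of_lt hus hts)
    refine ⟨?_, fun j hj => h2 j (Finset.mem_range.2 hj)⟩
    exact (ordConnected_Icc.uIcc_subset hs.1 ht) hu
  have hs1 := hs.1
  have hself : s ∈ ordConnectedComponent (R φ i c) s := by
    rw [mem_ordConnectedComponent, uIcc_self, singleton_subset_iff]; exact hs
  by_cases hs0 : s ≤ 0
  · refine ⟨s, hself, s + min (ε / 2) 1, key _ ⟨?_, ?_⟩ ?_, ?_⟩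
    · have : 0 < min (ε / 2) 1 := lt_min (by linarith) one_pos
      linarith [hs1.1]
    · linarith [min_le_right (ε / 2) 1]
    · rw [add_sub_cancel_left, abs_of_pos (lt_min (by linarith) one_pos)]
      linarith [min_le_left (ε / 2) 1]
    · have : 0 < min (ε / 2) 1 := lt_min (by linarith) one_pos
      linarith
  · push Not at hs0
    refine ⟨s, hself, s - min (ε / 2) 1, key _ ⟨?_, ?_⟩ ?_, ?_⟩
    · linarith [min_le_right (ε / 2) 1]
    · have : 0 < min (ε / 2) 1 := lt_min (by linarith) one_pos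
      linarith [hs1.2]
    · rw [sub_sub_cancel_left, abs_neg, abs_of_pos (lt_min (by linarith) one_pos)]
      linarith [min_le_left (ε / 2) 1]
    · have : 0 < min (ε / 2) 1 := lt_min (by linarith) one_pos
      linarith

end AT

open AT in
theorem atlas_foliable {e : ℝ} (he : 0 < e) {A : Set (ℝ × ℝ → Pt)} {X : Set Pt}
    (hX : X ⊆ Surf e) (hA : ∀ φ ∈ A, Chart0 e φ)
    (hcomp : ∀ φ ∈ A, ∀ ψ ∈ A, ∀ z w : ℝ × ℝ, φ z = ψ w →
      ∃ ε > 0, ∀ w' : ℝ × ℝ, dist w' w < ε → w'.2 = w.2 → ∃ z', φ z' = ψ w' ∧ z'.2 = z.2)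
    (hopen : ∀ φ ∈ A, ∀ O : Set (ℝ × ℝ), IsOpen O → ∃ O' : Set Pt, IsOpen O' ∧
      O' ∩ Surf e = φ '' O)
    (hcov : ∀ p ∈ X, ∃ φ ∈ A, φ 0 = p)
    (hsat : ∀ φ ∈ A, ∀ c : ℝ, (∃ s, φ (s, c) ∈ X) →
      (∀ s, φ (s, c) ∈ X) ∧ ContDiff ℝ ∞ (fun s : ℝ => φ (s, c))) :
    ∃ 𝒞 : Set (Set (ℝ × ℝ × ℝ)),
      𝒞.PairwiseDisjoint id ∧ ⋃₀ 𝒞 = X ∧
      (∀ φ ∈ A, ∀ ψ ∈ A, ∀ z w : ℝ × ℝ, φ z = ψ w →
        ∃ ε > 0, ∀ z' w' : ℝ × ℝ, dist z' z < ε → z'.2 = z.2 → ψ w' = φ z' → w'.2 = w.2) ∧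
      (⋃₀ 𝒞 ⊆ ⋃ φ ∈ A, Set.range φ) ∧
      (∀ C ∈ 𝒞, ∃ γ : ℝ → ℝ × ℝ × ℝ, ∃ I : Set ℝ,
          I.OrdConnected ∧ I.Nontrivial ∧ ContDiff ℝ ∞ γ ∧ (∀ t, deriv γ t ≠ 0) ∧
          Set.InjOn γ I ∧ γ '' I = C ∧
          ∀ t ∈ I, ∀ φ ∈ A, ∀ z : ℝ × ℝ, φ z = γ t →
            ∃ ε > 0, ∀ s ∈ I, |s - t| < ε → ∃ z' : ℝ × ℝ, φ z' = γ s ∧ z'.2 = z.2) := by
  have hcomp' : ∀ φ ∈ A, ∀ ψ ∈ A, ∀ z w : ℝ × ℝ, φ z = ψ w →
        ∃ ε > 0, ∀ z' w' : ℝ × ℝ, dist z' z < ε → z'.2 = z.2 → ψ w' = φ z' → w'.2 = w.2 := by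
    intro φ hφ ψ hψ z w hzw
    obtain ⟨ε, hε, h⟩ := hcomp ψ hψ φ hφ w z hzw.symm
    refine ⟨ε, hε, fun z' w' hz' hz2 hw' => ?_⟩
    obtain ⟨w'', hw1, hw2⟩ := h z' hz' hz2
    have : w' = w'' := (hA ψ hψ).inj (hw'.trans hw1.symm)
    rw [this, hw2]
  rcases X.eq_empty_or_nonempty with hXe | hXne
  · refine ⟨∅, by simp, by simp [hXe], hcomp', by simp, by simp⟩
  -- a countable cover
  obtain ⟨φ, hφA, hφcov⟩ : ∃ φ : ℕ → ℝ × ℝ → Pt, (∀ n, φ n ∈ A) ∧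
      ∀ p ∈ X, ∃ n, p ∈ φ n '' (Metric.closedBall 0 1) := by
    have hch : ∀ p : X, ∃ φ ∈ A, ∃ O' : Set Pt, IsOpen O' ∧ (p : Pt) ∈ O' ∧
        O' ∩ Surf e ⊆ φ '' (Metric.closedBall 0 1) := by
      intro p
      obtain ⟨φ, hφ, h0⟩ := hcov p p.2
      obtain ⟨O', hO', heq⟩ := hopen φ hφ (Metric.ball 0 1) Metric.isOpen_ball
      refine ⟨φ, hφ, O', hO', ?_, ?_⟩
      · have : (p : Pt) ∈ φ '' (Metric.ball 0 1) := ⟨0, Metric.mem_ball_self one_pos, h0⟩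
        rw [← heq] at this
        exact this.1
      · rw [heq]
        exact image_mono Metric.ball_subset_closedBall
    choose Φ hΦA O' hO' hpO' hsub using hch
    obtain ⟨T, hTc, hT⟩ := TopologicalSpace.isOpen_iUnion_countable O' hO'
    have hTcov : ∀ p ∈ X, ∃ q ∈ T, p ∈ O' q := by
      intro p hp
      have h1 : p ∈ ⋃ i, O' i := mem_iUnion.2 ⟨⟨p, hp⟩, hpO' ⟨p, hp⟩⟩
      rw [← hT] at h1
      simpa using h1
    have hTne : T.Nonempty := by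
      obtain ⟨p, hp⟩ := hXne
      obtain ⟨q, hq, _⟩ := hTcov p hp
      exact ⟨q, hq⟩
    obtain ⟨f, hf⟩ := hTc.exists_eq_range hTne
    refine ⟨fun n => Φ (f n), fun n => hΦA _, fun p hp => ?_⟩
    obtain ⟨q, hq, hpq⟩ := hTcov p hp
    rw [hf] at hq
    obtain ⟨n, rfl⟩ := hq
    exact ⟨n, hsub _ ⟨hpq, hX hp⟩⟩
  have hcont : ∀ i, Continuous (φ i) := fun i => (hA _ (hφA i)).smooth.continuous
  -- the decomposition
  set 𝒞 : Set (Set Pt) := {C | ∃ (i : ℕ) (c s : ℝ), c ∈ Icc (-1 : ℝ) 1 ∧ s ∈ R φ i c ∧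
    φ i (s, c) ∈ X ∧ C = (fun t => φ i (t, c)) '' (ordConnectedComponent (R φ i c) s)} with h𝒞
  have hunion : ⋃₀ 𝒞 = X := by
    ext p
    constructor
    · rintro ⟨C, ⟨i, c, s, hc, hs, hsX, rfl⟩, t, ht, rfl⟩
      exact (hsat _ (hφA i) c ⟨s, hsX⟩).1 t
    · intro hp
      classical
      have hex := hφcov p hp
      obtain ⟨z, hz, hzp⟩ := Nat.find_spec hex
      have hmin := fun j (hj : j < Nat.find hex) => Nat.find_min hex hj
      set i := Nat.find hex with hi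
      obtain ⟨h1, h2⟩ := box_mem hz
      have hzR : z.1 ∈ R φ i z.2 := ⟨h1, fun j hj => by rw [Prod.mk.eta, hzp]; exact hmin j hj⟩
      refine ⟨_, ⟨i, z.2, z.1, h2, hzR, by rw [Prod.mk.eta, hzp]; exact hp, rfl⟩, z.1, ?_, hzp⟩
      rw [mem_ordConnectedComponent, uIcc_self, singleton_subset_iff]
      exact hzR
  refine ⟨𝒞, ?_, hunion, hcomp', ?_, ?_⟩
  · -- disjointness
    rintro C ⟨i, c, s, hc, hs, hsX, hC⟩ C' ⟨i', c', s', hc', hs', hsX', hC'⟩ hne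
    rw [Function.onFun, id, id, Set.disjoint_left]
    rintro p hp hp'
    apply hne
    rw [hC] at hp
    rw [hC'] at hp'
    obtain ⟨t, ht, rfl⟩ := hp
    obtain ⟨t', ht', heq⟩ := hp'
    simp only at heq
    have htR := ordConnectedComponent_subset ht
    have htR' := ordConnectedComponent_subset ht'
    have hii : i = i' := by
      rcases lt_trichotomy i i' with h | h | h
      · exfalso
        apply htR'.2 i h
        rw [heq]
        exact ⟨(t, c), mem_box htR.1 hc, rfl⟩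
      · exact h
      · exfalso
        apply htR.2 i' h
        rw [← heq]
        exact ⟨(t', c'), mem_box htR'.1 hc', rfl⟩
    subst hii
    have hinj := (hA _ (hφA i)).inj heq
    rw [Prod.mk.injEq] at hinj
    obtain ⟨rfl, rfl⟩ := hinj
    rw [hC, hC', ordConnectedComponent_eq ht, ordConnectedComponent_eq ht']
  · intro p hp
    rw [hunion] at hp
    obtain ⟨φ', hφ', h0⟩ := hcov p hp
    exact mem_biUnion hφ' ⟨0, h0⟩
  · rintro C ⟨i, c, s, hc, hs, hsX, hC⟩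
    obtain ⟨hall, hsm⟩ := hsat _ (hφA i) c ⟨s, hsX⟩
    refine ⟨fun t => φ i (t, c), ordConnectedComponent (R φ i c) s, inferInstance,
      nontriv hcont hs, hsm, ?_, ?_, hC.symm, ?_⟩
    · intro t ht0
      have hd : HasFDerivAt (φ i) (fderiv ℝ (φ i) (t, c)) (t, c) :=
        ((hA _ (hφA i)).smooth.differentiable (by norm_num) _).hasFDerivAt
      have hg : HasDerivAt (fun t : ℝ => (t, c)) ((1 : ℝ), (0 : ℝ)) t :=
        (hasDerivAt_id t).prodMk (hasDerivAt_const t c)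
      have h1 : HasDerivAt (fun t => φ i (t, c)) (fderiv ℝ (φ i) (t, c) (1, 0)) t :=
        hd.comp_hasDerivAt t hg
      rw [h1.deriv] at ht0
      have h2 := (hA _ (hφA i)).imm (t, c) (ht0.trans (map_zero _).symm)
      simp at h2
    · intro t _ t' _ htt
      have := (hA _ (hφA i)).inj htt
      rw [Prod.mk.injEq] at this
      exact this.1
    · intro t ht ψ hψ z hz
      obtain ⟨ε, hε, h⟩ := hcomp ψ hψ (φ i) (hφA i) z (t, c) hz
      refine ⟨ε, hε, fun s' hs' hst => ?_⟩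
      obtain ⟨z', h1, h2⟩ := h (s', c) (by
        rw [Prod.dist_eq, dist_self, max_lt_iff]
        exact ⟨by rw [Real.dist_eq]; exact hst, hε⟩) rfl
      exact ⟨z', h1, h2⟩

end TM
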