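import Pool.Agent.Helper55.TM.Links

/-!
# MP_fc8395_an : module SU, uniform bounds of the slopes on a compact set
-/

set_option autoImplicit false

open scoped ContDiff Topology
open Filter Set

namespace TM

namespace SU

lemma norm_le_coord (L : ℝ × ℝ →L[ℝ] ℝ) : ‖L‖ ≤ |L (1, 0)| + |L (0, 1)| := by
  refine L.opNorm_le_bound (by positivity) ?_
  rintro ⟨a, b⟩
  have h1 : L (a, b) = a * L (1, 0) + b * L (0, 1) := by
    have : ((a, b) : ℝ × ℝ) = a • ((1 : ℝ), (0 : ℝ)) + b • ((0 : ℝ), (1 : ℝ)) := by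
      ext <;> simp
    rw [this, map_add, map_smul, map_smul, smul_eq_mul, smul_eq_mul]
  rw [h1, Real.norm_eq_abs, Prod.norm_def]
  refine (abs_add_le _ _).trans ?_
  rw [abs_mul, abs_mul, add_mul]
  have ha : |a| ≤ max ‖a‖ ‖b‖ := le_max_left _ _
  have hb : |b| ≤ max ‖a‖ ‖b‖ := le_max_right _ _
  have h2 := mul_le_mul_of_nonneg_right ha (abs_nonneg (L (1, 0)))
  have h3 := mul_le_mul_of_nonneg_right hb (abs_nonneg (L (0, 1)))
  simp only at *
  linarith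

lemma coord_le (L : ℝ × ℝ →L[ℝ] ℝ) : |L (1, 0)| ≤ ‖L‖ ∧ |L (0, 1)| ≤ ‖L‖ := by
  constructor
  · have := L.le_opNorm (1, 0)
    simpa [Prod.norm_def] using this
  · have := L.le_opNorm (0, 1)
    simpa [Prod.norm_def] using this

end SU

open SU in
/-- `slope_unif` from `slope_close` (module SC) -/
theorem slope_unif_of {e : ℝ} (he : 0 < e)
    (slope_close : ∃ C : ℝ, 0 ≤ C ∧ ∀ (k : ℕ → ℕ), (∀ i, 1 ≤ k i) →
    ∀ N0 n : ℕ, N0 ≤ n → ∀ q ∈ Dom, |F e k N0 q| ≤ B e → |F e k n q| ≤ B e →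
      |slope (F e k n) q - slope (F e k N0) q|
        ≤ C / (|dt (F e k N0) q| * Real.sqrt (dg k N0).1) ∧
      |dt (slope (F e k n)) q - dt (slope (F e k N0)) q| ≤ C / Real.sqrt (dg k N0).1 ∧
      |dz (slope (F e k n)) q - dz (slope (F e k N0)) q|
        ≤ C * (1 + |slope (F e k N0) q| + |dt (slope (F e k N0)) q|) / Real.sqrt (dg k N0).1)
    {k : ℕ → ℕ} (hk : ∀ i, 1 ≤ k i) {N0 : ℕ}
    {K : Set (ℝ × ℝ)} (hK : IsCompact K) (hKD : K ⊆ Dom) (hB : ∀ q ∈ K, |F e k N0 q| ≤ B e) :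
    ∃ M : ℝ, 0 ≤ M ∧ ∀ k' : ℕ → ℕ, (∀ i, 1 ≤ k' i) → (∀ i < N0, k' i = k i) → ∀ n, N0 ≤ n →
      ∀ q ∈ K, |F e k' n q| ≤ B e →
        |slope (F e k' n) q| ≤ M ∧ ‖fderiv ℝ (slope (F e k' n)) q‖ ≤ M := by
  obtain ⟨C, hC, hSC⟩ := slope_close
  set f0 := F e k N0 with hf0
  have hne : ∀ q ∈ K, dt f0 q ≠ 0 := fun q hq =>
    F_ne he hk (hKD hq) (lt_of_le_of_lt (hB q hq) (B_lt_V he))
  have hsm : ∀ q ∈ K, ContDiffAt ℝ ∞ (slope f0) q := fun q hq =>
    contDiffAt_slope (contDiffAt_F (hKD hq)) (hne q hq)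
  obtain ⟨M1, hM1⟩ := hK.exists_bound_of_continuousOn (f := slope f0)
    (fun q hq => (hsm q hq).continuousAt.continuousWithinAt)
  obtain ⟨M2, hM2⟩ := hK.exists_bound_of_continuousOn (f := fderiv ℝ (slope f0))
    (fun q hq => ((hsm q hq).fderiv_right (m := ∞) (by simp)).continuousAt.continuousWithinAt)
  rcases K.eq_empty_or_nonempty with hKe | ⟨q0, hq0⟩
  · exact ⟨0, le_rfl, fun k' _ _ n _ q hq => by rw [hKe] at hq; exact absurd hq (notMem_empty _)⟩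
  have hM1p : 0 ≤ M1 := (norm_nonneg _).trans (hM1 q0 hq0)
  have hM2p : 0 ≤ M2 := (norm_nonneg _).trans (hM2 q0 hq0)
  refine ⟨(M1 + 2 * C / e) + ((M2 + C) + (M2 + C * (1 + M1 + M2))), by positivity, ?_⟩
  intro k' hk' hkk' n hn q hq hqB
  have hFeq : F e k' N0 = f0 := by
    funext q'
    unfold f0
    simp only [F]
    rw [orb_congr hkk']
  have hdg : dg k' N0 = dg k N0 := dg_congr hkk'
  obtain ⟨s1, s2, s3⟩ := hSC k' hk' N0 n hn q (hKD hq) (by rw [hFeq]; exact hB q hq) hqB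
  rw [hFeq, hdg] at s1 s2 s3
  -- sizes
  have hm : (1 : ℝ) ≤ (dg k N0).1 := by exact_mod_cast dg_pos hk N0
  have hsq1 : 1 ≤ Real.sqrt (dg k N0).1 := Real.one_le_sqrt.2 hm
  have hG : e / 2 ≤ |dt f0 q| := by
    have h1 := (F_tame he hk (hKD hq) (hB q hq)).2
    have h2 : (e / 2) ^ 2 ≤ dt f0 q ^ 2 := by nlinarith [sq_nonneg e]
    rw [← sq_abs (dt f0 q)] at h2
    exact (sq_le_sq₀ (by positivity) (abs_nonneg _)).1 h2
  have hd1 : C / (|dt f0 q| * Real.sqrt (dg k N0).1) ≤ 2 * C / e := by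
    rw [show 2 * C / e = C / (e / 2) by field_simp]
    refine div_le_div_of_nonneg_left hC (by positivity) ?_
    nlinarith [abs_nonneg (dt f0 q)]
  have hdiv : ∀ x : ℝ, 0 ≤ x → x / Real.sqrt (dg k N0).1 ≤ x := fun x hx =>
    div_le_self hx hsq1
  have hcoord := coord_le (fderiv ℝ (slope f0) q)
  have hf2 := hM2 q hq
  have hf1 : |slope f0 q| ≤ M1 := hM1 q hq
  have hz0 : |dz (slope f0) q| ≤ M2 := hcoord.1.trans hf2
  have ht0 : |dt (slope f0) q| ≤ M2 := hcoord.2.trans hf2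
  have r1 : |slope (F e k' n) q| ≤ M1 + 2 * C / e := by
    have := abs_sub_abs_le_abs_sub (slope (F e k' n) q) (slope f0 q)
    linarith
  have r2 : |dt (slope (F e k' n)) q| ≤ M2 + C := by
    have := abs_sub_abs_le_abs_sub (dt (slope (F e k' n)) q) (dt (slope f0) q)
    have h2 := hdiv C hC
    linarith
  have r3 : |dz (slope (F e k' n)) q| ≤ M2 + C * (1 + M1 + M2) := by
    have h1 := abs_sub_abs_le_abs_sub (dz (slope (F e k' n)) q) (dz (slope f0) q)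
    have h2 := hdiv (C * (1 + |slope f0 q| + |dt (slope f0) q|)) (by positivity)
    have h3 : C * (1 + |slope f0 q| + |dt (slope f0) q|) ≤ C * (1 + M1 + M2) :=
      mul_le_mul_of_nonneg_left (by linarith) hC
    linarith
  constructor
  · have : 0 ≤ (M2 + C) + (M2 + C * (1 + M1 + M2)) := by positivity
    linarith
  · have h1 := norm_le_coord (fderiv ℝ (slope (F e k' n)) q)
    have h2 : |fderiv ℝ (slope (F e k' n)) q (1, 0)| ≤ M2 + C * (1 + M1 + M2) := r3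
    have h3 : |fderiv ℝ (slope (F e k' n)) q (0, 1)| ≤ M2 + C := r2
    have : 0 ≤ M1 + 2 * C / e := by positivity
    linarith

end TM
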